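import Pool.Agent.W770.KP.Stm

/-!
# KP-LL: the line lemma with multiplicities
-/

set_option autoImplicit false

open scoped Classical

namespace Pool.Agent.W160.KP.LL

open MvPolynomial Pool.Agent.W770.KP

section
variable {A : Type} [CommRing A] {n : ℕ}

/-- the coefficient of `X^α` in `(X + z)^β` -/
noncomputable def sc (z : Fin n → A) (β α : Fin n →₀ ℕ) : A :=
  ∏ i, (z i ^ (β i - α i) * ((β i).choose (α i) : A))

/-- the translation by `z` -/
noncomputable def sh (z : Fin n → A) : MvPolynomial (Fin n) A →ₐ[A] MvPolynomial (Fin n) A :=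
  bind₁ (fun i => X i + C (z i))

theorem sc_eq_zero (z : Fin n → A) {β α : Fin n →₀ ℕ} (h : ¬ α ≤ β) : sc z β α = 0 := by
  rw [Finsupp.le_def] at h
  push Not at h
  obtain ⟨i, hi⟩ := h
  refine Finset.prod_eq_zero (Finset.mem_univ i) ?_
  rw [Nat.choose_eq_zero_of_lt hi, Nat.cast_zero, mul_zero]

theorem term_eq (z : Fin n → A) (β : Fin n →₀ ℕ) (p : Fin n → ℕ) :
    (∏ i, (X i ^ p i * (C (z i)) ^ (β i - p i) * (((β i).choose (p i) : ℕ) :
      MvPolynomial (Fin n) A))) = monomial (Finsupp.equivFunOnFinite.symm p)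
        (∏ i, (z i ^ (β i - p i) * ((β i).choose (p i) : A))) := by
  rw [monomial_eq, Finsupp.prod_fintype _ _ (fun i => pow_zero _), map_prod,
    ← Finset.prod_mul_distrib]
  refine Finset.prod_congr rfl fun i _ => ?_
  rw [map_mul, map_pow, map_natCast, Finsupp.equivFunOnFinite_symm_apply_apply]
  ring

theorem coeff_prod (z : Fin n → A) (β α : Fin n →₀ ℕ) :
    (∏ i, (X i + C (z i)) ^ (β i) : MvPolynomial (Fin n) A).coeff α = sc z β α := by
  simp only [add_pow]
  rw [Finset.prod_univ_sum, coeff_sum]
  have h1 : ∀ p : Fin n → ℕ, coeff α (∏ i, (X i ^ p i * (C (z i)) ^ (β i - p i) *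
      (((β i).choose (p i) : ℕ) : MvPolynomial (Fin n) A))) =
      if Finsupp.equivFunOnFinite.symm p = α then
        (∏ i, (z i ^ (β i - p i) * ((β i).choose (p i) : A))) else 0 := by
    intro p
    rw [term_eq, coeff_monomial]
  simp only [h1]
  rw [Finset.sum_eq_single (α : Fin n → ℕ)]
  · rw [if_pos (by ext i; rfl)]
    rfl
  · intro p _ hp
    rw [if_neg]
    intro h
    apply hp
    rw [← h]
    funext i
    rfl
  · intro h
    rw [if_pos (by ext i; rfl)]
    refine sc_eq_zero z fun hle => h ?_
    rw [Fintype.mem_piFinset]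
    intro i
    have := Finsupp.le_def.mp hle i
    exact Finset.mem_range.mpr (by omega)

theorem coeff_sh (z : Fin n → A) (P : MvPolynomial (Fin n) A) (α : Fin n →₀ ℕ)
    (s : Finset (Fin n →₀ ℕ)) (hs : P.support ⊆ s) :
    (sh z P).coeff α = ∑ β ∈ s, P.coeff β * sc z β α := by
  have h1 : (sh z P).coeff α = ∑ β ∈ P.support, P.coeff β * sc z β α := by
    conv_lhs => rw [← P.support_sum_monomial_coeff]
    rw [map_sum, coeff_sum]
    refine Finset.sum_congr rfl fun β _ => ?_
    rw [sh, bind₁_monomial, coeff_C_mul]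
    congr 1
    rw [← coeff_prod]
    congr 1
    refine Finset.prod_subset (Finset.subset_univ _) fun i _ hi => ?_
    rw [Finsupp.notMem_support_iff.mp hi, pow_zero]
  rw [h1]
  refine Finset.sum_subset hs fun β _ hβ => ?_
  rw [notMem_support_iff.mp hβ, zero_mul]

theorem sh_sh (z w : Fin n → A) (P : MvPolynomial (Fin n) A) :
    sh z (sh w P) = sh (fun i => z i + w i) P := by
  unfold sh
  rw [bind₁_bind₁]
  congr 2
  funext i
  rw [map_add, bind₁_X_right, bind₁_C_right, C_add, add_assoc]

end

section
variable {F : Type} [Field F] {n : ℕ}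

open Polynomial in
theorem sc_natDegree (b v : Fin n → F) (β α : Fin n →₀ ℕ) :
    (sc (fun i => Polynomial.C (b i) + Polynomial.X * Polynomial.C (v i)) β α).natDegree ≤
      ∑ i, (β i - α i) ∧
    (sc (fun i => Polynomial.C (b i) + Polynomial.X * Polynomial.C (v i)) β α).coeff
      (∑ i, (β i - α i)) = sc v β α := by
  have hf : ∀ i : Fin n, ((Polynomial.C (b i) + Polynomial.X * Polynomial.C (v i)) ^ (β i - α i) *
      ((β i).choose (α i) : F[X])).natDegree ≤ β i - α i := by
    intro i
    have h1 : (Polynomial.C (b i) + Polynomial.X * Polynomial.C (v i)).natDegree ≤ 1 := by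
      compute_degree
    calc _ ≤ ((Polynomial.C (b i) + Polynomial.X * Polynomial.C (v i)) ^ (β i - α i)).natDegree +
          ((β i).choose (α i) : F[X]).natDegree := Polynomial.natDegree_mul_le
      _ ≤ (β i - α i) * 1 + 0 := by
          refine Nat.add_le_add ?_ ?_
          · exact Polynomial.natDegree_pow_le_of_le _ h1
          · rw [Polynomial.natDegree_natCast]
      _ = β i - α i := by omega
  have hc : ∀ i : Fin n, ((Polynomial.C (b i) + Polynomial.X * Polynomial.C (v i)) ^ (β i - α i) *
      ((β i).choose (α i) : F[X])).coeff (β i - α i) =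
        v i ^ (β i - α i) * ((β i).choose (α i) : F) := by
    intro i
    have h1 : (Polynomial.C (b i) + Polynomial.X * Polynomial.C (v i)).natDegree ≤ 1 := by
      compute_degree
    rw [← Polynomial.C_eq_natCast, Polynomial.coeff_mul_C]
    congr 1
    have h2 := Polynomial.coeff_pow_of_natDegree_le (m := β i - α i) h1
    rw [mul_one] at h2
    rw [h2]
    congr 1
    simp
  unfold sc
  have key : ∀ s : Finset (Fin n),
      (∏ i ∈ s, ((Polynomial.C (b i) + Polynomial.X * Polynomial.C (v i)) ^ (β i - α i) *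
        ((β i).choose (α i) : F[X]))).natDegree ≤ ∑ i ∈ s, (β i - α i) ∧
      (∏ i ∈ s, ((Polynomial.C (b i) + Polynomial.X * Polynomial.C (v i)) ^ (β i - α i) *
        ((β i).choose (α i) : F[X]))).coeff (∑ i ∈ s, (β i - α i)) =
        ∏ i ∈ s, (v i ^ (β i - α i) * ((β i).choose (α i) : F)) := by
    intro s
    induction s using Finset.induction_on with
    | empty => simp
    | insert i s hi ih =>
      rw [Finset.prod_insert hi, Finset.sum_insert hi, Finset.prod_insert hi]
      refine ⟨Polynomial.natDegree_mul_le.trans (Nat.add_le_add (hf i) ih.1), ?_⟩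
      rw [Polynomial.coeff_mul_add_eq_of_natDegree_le (hf i) ih.1, hc, ih.2]
  exact key Finset.univ

theorem sc_dvd (p : Polynomial F) (v : Fin n → Polynomial F) (β α : Fin n →₀ ℕ) (N : ℕ)
    (hN : N ≤ ∑ i, (β i - α i)) : p ^ N ∣ sc (fun i => p * v i) β α := by
  refine (pow_dvd_pow p hN).trans ?_
  unfold sc
  rw [← Finset.prod_pow_eq_pow_sum]
  refine Finset.prod_dvd_prod_of_dvd _ _ fun i _ => ?_
  rw [mul_pow, mul_assoc]
  exact Dvd.intro _ rfl

theorem sum_sub (β α : Fin n →₀ ℕ) (h : α ≤ β) : ∑ i, (β i - α i) + α.degree = β.degree := by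
  rw [Finsupp.degree_eq_sum, Finsupp.degree_eq_sum, ← Finset.sum_add_distrib]
  refine Finset.sum_congr rfl fun i _ => ?_
  have := Finsupp.le_def.mp h i
  omega

end

theorem main : S_LL := by
  intro F _ _ n P e hP g b v _ hg hsum α hα
  obtain ⟨j, hj⟩ : ∃ j, j = α.degree := ⟨_, rfl⟩
  obtain ⟨q, hq⟩ : ∃ q, q = Fintype.card F := ⟨_, rfl⟩
  rw [← hj, ← hq] at hα
  have hq1 : 0 < q := by rw [hq]; exact Fintype.card_pos
  have hje : j ≤ e := le_trans (Nat.le_mul_of_pos_right j hq1) hα
  have hdeg : ∀ β ∈ P.support, β.degree ≤ e := fun β hβ => (le_totalDegree hβ).trans hP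
  obtain ⟨zz, hzz⟩ : ∃ zz : Fin n → Polynomial F,
    zz = fun i => Polynomial.C (b i) + Polynomial.X * Polynomial.C (v i) := ⟨_, rfl⟩
  obtain ⟨R, hR⟩ : ∃ R : Polynomial F, R = (sh zz (map Polynomial.C P)).coeff α := ⟨_, rfl⟩
  have hR1 : R = ∑ β ∈ P.support, Polynomial.C (P.coeff β) * sc zz β α := by
    rw [hR, coeff_sh zz _ α P.support (support_map_subset _ _)]
    refine Finset.sum_congr rfl fun β _ => ?_
    rw [coeff_map]
  -- the top coefficient
  have hRdeg : R.natDegree ≤ e - j := by
    rw [hR1]
    refine Polynomial.natDegree_sum_le_of_forall_le _ _ fun β hβ => ?_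
    refine (Polynomial.natDegree_C_mul_le _ _).trans ?_
    by_cases hle : α ≤ β
    · have h1 := sum_sub β α hle
      have h2 := (sc_natDegree b v β α).1
      rw [← hzz] at h2
      have h3 := hdeg β hβ
      omega
    · rw [sc_eq_zero zz hle, Polynomial.natDegree_zero]
      omega
  have hRtop : R.coeff (e - j) = (shift v (homogeneousComponent e P)).coeff α := by
    have h1 : (shift v (homogeneousComponent e P)).coeff α =
        (sh v (homogeneousComponent e P)).coeff α := rfl
    rw [h1, coeff_sh v _ α P.support, hR1, Polynomial.finsetSum_coeff]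
    · refine Finset.sum_congr rfl fun β hβ => ?_
      rw [Polynomial.coeff_C_mul, coeff_homogeneousComponent]
      by_cases hle : α ≤ β
      · have h1 := sum_sub β α hle
        obtain ⟨h2, h3⟩ := sc_natDegree b v β α
        rw [← hzz] at h2 h3
        have h4 := hdeg β hβ
        by_cases he : β.degree = e
        · rw [if_pos he]
          have h5 : ∑ i, (β i - α i) = e - j := by omega
          rw [h5] at h3
          rw [h3]
        · rw [if_neg he, zero_mul, Polynomial.coeff_eq_zero_of_natDegree_lt, mul_zero]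
          omega
      · rw [sc_eq_zero zz hle, sc_eq_zero v hle, Polynomial.coeff_zero, mul_zero, mul_zero]
    · intro β hβ
      rw [mem_support_iff, coeff_homogeneousComponent] at hβ
      rw [mem_support_iff]
      intro h0
      rw [h0, ite_self] at hβ
      exact hβ rfl
  -- the zeros
  have hdvd : ∀ t : F, (Polynomial.X - Polynomial.C t) ^ (g (b + t • v) - j) ∣ R := by
    intro t
    have h1 : sh zz (map Polynomial.C P) =
        sh (fun i => (Polynomial.X - Polynomial.C t) * Polynomial.C (v i))
          (map Polynomial.C (shift (b + t • v) P)) := by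
      have h2 : map Polynomial.C (shift (b + t • v) P) =
          sh (fun i => Polynomial.C ((b + t • v) i)) (map Polynomial.C P) := by
        unfold shift sh
        rw [map_bind₁]
        congr 2
        funext i
        rw [map_add, map_X, map_C]
      rw [h2, sh_sh]
      congr 2
      rw [hzz]
      funext i
      rw [Pi.add_apply, Pi.smul_apply, smul_eq_mul, map_add, map_mul]
      ring
    rw [hR, h1, coeff_sh _ _ α (shift (b + t • v) P).support (support_map_subset _ _)]
    refine Finset.dvd_sum fun β hβ => ?_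
    refine Dvd.dvd.mul_left ?_ _
    by_cases hle : α ≤ β
    · refine sc_dvd _ _ β α _ ?_
      have h3 := sum_sub β α hle
      have h4 : g (b + t • v) ≤ β.degree := by
        by_contra hlt
        push Not at hlt
        exact (mem_support_iff.mp hβ) (hg t β hlt)
      omega
    · rw [sc_eq_zero _ hle]
      exact dvd_zero _
  have hprod : (∏ t : F, (Polynomial.X - Polynomial.C t) ^ (g (b + t • v) - j)) ∣ R := by
    refine Finset.prod_dvd_of_coprime ?_ fun t _ => hdvd t
    intro s _ t _ hst
    exact (Polynomial.isCoprime_X_sub_C_of_isUnit_sub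
      (isUnit_iff_ne_zero.mpr (sub_ne_zero.mpr hst))).pow
  have hnd : (∏ t : F, (Polynomial.X - Polynomial.C t) ^ (g (b + t • v) - j)).natDegree =
      ∑ t : F, (g (b + t • v) - j) := by
    rw [Polynomial.natDegree_prod_of_monic _ _
      fun t _ => (Polynomial.monic_X_sub_C t).pow _]
    refine Finset.sum_congr rfl fun t _ => ?_
    rw [Polynomial.natDegree_pow, Polynomial.natDegree_X_sub_C, mul_one]
  have hcount : e < ∑ t : F, (g (b + t • v) - j) := by
    have h1 : ∑ t : F, g (b + t • v) ≤ ∑ t : F, (g (b + t • v) - j) + j * q := by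
      calc ∑ t : F, g (b + t • v) ≤ ∑ t : F, ((g (b + t • v) - j) + j) :=
            Finset.sum_le_sum fun t _ => by omega
        _ = ∑ t : F, (g (b + t • v) - j) + j * q := by
            rw [Finset.sum_add_distrib, Finset.sum_const, Finset.card_univ, ← hq, smul_eq_mul,
              mul_comm q j]
    omega
  have hR0 : R = 0 := by
    refine Polynomial.eq_zero_of_dvd_of_natDegree_lt hprod ?_
    rw [hnd]
    omega
  rw [← hRtop, hR0, Polynomial.coeff_zero]

end Pool.Agent.W160.KP.LL
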